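import Pool.Agent.H37.CNK.Stmts

/-!
# Row `DRV`: existence of the derivation `t d/dt`

`k[t] → k(t) → L` is formally étale, so the map `t ↦ t + t ε` from `k[t]` to the dual numbers of `L`
lifts the identity of `L`.
-/

set_option autoImplicit false

namespace Pool.CND

open Polynomial

/-- lifting along a surjection with nilpotent kernel, for ring homomorphisms -/
theorem drv_lift (R A B C : Type) [CommRing R] [CommRing A] [CommRing B] [CommRing C] [Algebra R A]
    [Algebra.FormallyEtale R A] (φ : R →+* B) (g : B →+* C) (f : A →+* C)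
    (h : g.comp φ = f.comp (algebraMap R A)) (hg : Function.Surjective g)
    (hn : IsNilpotent (RingHom.ker g)) :
    ∃ ψ : A →+* B, (∀ a, g (ψ a) = f a) ∧ ∀ r, ψ (algebraMap R A r) = φ r := by
  let i1 : Algebra R B := φ.toAlgebra
  let i2 : Algebra R C := (g.comp φ).toAlgebra
  let g' : B →ₐ[R] C := { g with commutes' := fun r => rfl }
  let f' : A →ₐ[R] C := { f with commutes' := fun r => (RingHom.congr_fun h r).symm }
  have hg' : Function.Surjective g' := hg
  have hn' : IsNilpotent (RingHom.ker (g' : B →+* C)) := hn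
  let ψ : A →ₐ[R] B := Algebra.FormallySmooth.liftOfSurjective f' g' hg' hn'
  refine ⟨ψ.toRingHom, fun a => ?_, fun r => ?_⟩
  · exact Algebra.FormallySmooth.liftOfSurjective_apply f' g' hg' hn' a
  · exact ψ.commutes r

/-- `L` is separable over `k(t)` -/
theorem drv_sep (k L G : Type) [Field k] [Field L] [Algebra k L] [Group G] [Finite G]
    (ρ : G →* (L ≃ₐ[k] L)) (t : L) (hc : IsCover ρ t) :
    Algebra.IsSeparable (IntermediateField.adjoin k {t}) L := by
  let act : MulSemiringAction G L := MulSemiringAction.compHom L ρ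
  have hsm : ∀ (g : G) (x : L), g • x = ρ g x := fun g x => rfl
  have : FaithfulSMul G L := ⟨fun {a b} hab => hc.inj (AlgEquiv.ext fun x => hab x)⟩
  have : SMulCommClass G (IntermediateField.adjoin k {t}) L := ⟨fun g a x => by
    have ha : ρ g (a : L) = a := ((hc.fixed (a : L)).2 a.2) g
    rw [Algebra.smul_def, Algebra.smul_def, hsm, hsm, map_mul]
    congr 1⟩
  have : Algebra.IsInvariant (IntermediateField.adjoin k {t}) L G := ⟨fun x hx =>
    ⟨⟨x, (hc.fixed x).1 hx⟩, rfl⟩⟩
  have : IsGaloisGroup G (IntermediateField.adjoin k {t}) L := ⟨inferInstance, inferInstance,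
    inferInstance⟩
  have := IsGaloisGroup.isGalois G (IntermediateField.adjoin k {t}) L
  infer_instance

open scoped IntermediateField.algebraAdjoinAdjoin in
/-- `L` is formally étale over `k[t]` -/
theorem drv_etale (k L G : Type) [Field k] [Field L] [Algebra k L] [Group G] [Finite G]
    (ρ : G →* (L ≃ₐ[k] L)) (t : L) (hc : IsCover ρ t) :
    Algebra.FormallyEtale (Algebra.adjoin k {t}) L := by
  have := drv_sep k L G ρ t hc
  have h1 : Algebra.FormallyEtale (Algebra.adjoin k {t}) (IntermediateField.adjoin k {t}) :=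
    Algebra.FormallyEtale.of_isLocalization (nonZeroDivisors (Algebra.adjoin k {t}))
  have h2 : Algebra.FormallyEtale (IntermediateField.adjoin k {t}) L :=
    Algebra.FormallyEtale.of_isSeparable _ _
  exact Algebra.FormallyEtale.comp (Algebra.adjoin k {t}) (IntermediateField.adjoin k {t}) L

theorem drv_ex (k L G : Type) [Field k] [Field L] [Algebra k L] [Group G] [Finite G]
    (ρ : G →* (L ≃ₐ[k] L)) (t : L) (hc : IsCover ρ t) : ∃ Δ : L → L, DD k t Δ := by
  have := drv_etale k L G ρ t hc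
  let e := Polynomial.algEquivOfTranscendental k t hc.trans
  let φa : Algebra.adjoin k {t} →ₐ[k] TrivSqZeroExt L L :=
    (aeval (R := k) (TrivSqZeroExt.inl t + TrivSqZeroExt.inr t : TrivSqZeroExt L L)).comp
      (e.symm : Algebra.adjoin k {t} →ₐ[k] k[X])
  let ga : TrivSqZeroExt L L →ₐ[k] L := TrivSqZeroExt.fstHom k L L
  have hcomp : ga.comp φa = (Algebra.adjoin k {t}).val := by
    ext ⟨x, hx⟩
    obtain ⟨q, hq⟩ := e.surjective ⟨x, hx⟩
    rw [← hq]
    have h1 : φa (e q) = aeval (R := k)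
        (TrivSqZeroExt.inl t + TrivSqZeroExt.inr t : TrivSqZeroExt L L) q := by
      show aeval (R := k) (TrivSqZeroExt.inl t + TrivSqZeroExt.inr t : TrivSqZeroExt L L)
        (e.symm (e q)) = _
      rw [AlgEquiv.symm_apply_apply]
    rw [AlgHom.comp_apply, h1, ← Polynomial.aeval_algHom_apply]
    have h2 : ga (TrivSqZeroExt.inl t + TrivSqZeroExt.inr t : TrivSqZeroExt L L) = t := by
      simp [ga]
    rw [h2]
    simp only [e, Polynomial.algEquivOfTranscendental_apply]
    rw [← Polynomial.aeval_algHom_apply]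
    rfl
  obtain ⟨ψ, hψ1, hψ2⟩ := drv_lift (Algebra.adjoin k {t}) L (TrivSqZeroExt L L) L φa.toRingHom
    ga.toRingHom (RingHom.id L) (by
      ext r
      exact AlgHom.congr_fun hcomp r) (fun x => ⟨TrivSqZeroExt.inl x, by simp [ga]⟩) (by
      refine ⟨2, ?_⟩
      rw [pow_two, Ideal.zero_eq_bot, eq_bot_iff, Ideal.mul_le]
      intro r hr s hs
      have hr' : r.fst = 0 := hr
      have hs' : s.fst = 0 := hs
      rw [Ideal.mem_bot]
      apply TrivSqZeroExt.ext
      · simp [hr']
      · simp [hr', hs'])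
  have hfst : ∀ x, (ψ x).fst = x := fun x => hψ1 x
  refine ⟨fun x => (ψ x).snd, ⟨fun x y => ?_, fun x y => ?_, fun c => ?_, ?_⟩⟩
  · simp
  · rw [map_mul, TrivSqZeroExt.snd_mul, hfst, hfst]
    simp [mul_comm]
  · have h := hψ2 (algebraMap k _ c)
    have h1 : φa.toRingHom (algebraMap k (Algebra.adjoin k {t}) c) =
      algebraMap k (TrivSqZeroExt L L) c := φa.commutes c
    rw [h1] at h
    have h2 : algebraMap (Algebra.adjoin k {t}) L (algebraMap k (Algebra.adjoin k {t}) c) =
      algebraMap k L c := rfl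
    rw [h2] at h
    show (ψ (algebraMap k L c)).snd = 0
    rw [h]
    simp [TrivSqZeroExt.algebraMap_eq_inl']
  · have h := hψ2 ⟨t, Algebra.self_mem_adjoin_singleton k t⟩
    have h1 : φa.toRingHom ⟨t, Algebra.self_mem_adjoin_singleton k t⟩ =
      (TrivSqZeroExt.inl t + TrivSqZeroExt.inr t : TrivSqZeroExt L L) := by
      show aeval (R := k) (TrivSqZeroExt.inl t + TrivSqZeroExt.inr t : TrivSqZeroExt L L)
        ((Polynomial.algEquivOfTranscendental k t hc.trans).symm
          ⟨t, Algebra.self_mem_adjoin_singleton k t⟩) = _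
      rw [Polynomial.algEquivOfTranscendental_symm_gen, aeval_X]
    rw [h1] at h
    show (ψ t).snd = t
    have h2 : algebraMap (Algebra.adjoin k {t}) L ⟨t, Algebra.self_mem_adjoin_singleton k t⟩ = t :=
      rfl
    rw [h2] at h
    rw [h]
    simp

theorem drv_thm (h : S_DRU) : S_DRV := by
  intro k L G _ _ _ _ _ ρ t hc
  obtain ⟨Δ, hΔ⟩ := drv_ex k L G ρ t hc
  refine ⟨Δ, hΔ, fun g x => ?_⟩
  have ht : ∀ g : G, ρ g t = t :=
    (hc.fixed t).2 (IntermediateField.subset_adjoin k {t} (Set.mem_singleton t))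
  have key := h k L G ρ t (fun x => ρ g⁻¹ (Δ (ρ g x)) - Δ x) hc
    (fun x y => by
      show ρ g⁻¹ (Δ (ρ g (x + y))) - Δ (x + y) =
        (ρ g⁻¹ (Δ (ρ g x)) - Δ x) + (ρ g⁻¹ (Δ (ρ g y)) - Δ y)
      rw [map_add, hΔ.add, hΔ.add, map_add]
      ring)
    (fun x y => by
      show ρ g⁻¹ (Δ (ρ g (x * y))) - Δ (x * y) =
        x * (ρ g⁻¹ (Δ (ρ g y)) - Δ y) + y * (ρ g⁻¹ (Δ (ρ g x)) - Δ x)
      have hi : ∀ v : L, ρ g⁻¹ (ρ g v) = v := fun v => by
        rw [← AlgEquiv.mul_apply, ← map_mul, inv_mul_cancel, map_one, AlgEquiv.one_apply]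
      rw [map_mul, hΔ.mul, hΔ.mul, map_add, map_mul, map_mul, hi, hi]
      ring)
    (fun c => by
      show ρ g⁻¹ (Δ (ρ g (algebraMap k L c))) - Δ (algebraMap k L c) = 0
      rw [AlgEquiv.commutes, hΔ.con, map_zero, sub_zero])
    (by
      show ρ g⁻¹ (Δ (ρ g t)) - Δ t = 0
      rw [ht, hΔ.self, ht, sub_self])
    x
  have key' : ρ g⁻¹ (Δ (ρ g x)) = Δ x := sub_eq_zero.1 key
  rw [← key', ← AlgEquiv.mul_apply, ← map_mul, mul_inv_cancel, map_one, AlgEquiv.one_apply]

end Pool.CND
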